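import Mathlib

/-!
Finiteness of the pairs of exponents for which the product of two members of the family
`κ k * (1 + δ * κ k)` is a square in a totally real number field.
-/

namespace Pool.Agent.Helper93

open NumberField

/-- Every complex embedding of a totally real field comes from a real one. -/
theorem exists_real_embedding {F : Type*} [Field F] [NumberField F]
    (hF : NumberField.IsTotallyReal F) (φ : F →+* ℂ) :
    ∃ ψ : F →+* ℝ, ∀ x, φ x = (ψ x : ℂ) := by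
  have h : ComplexEmbedding.IsReal φ := hF.complexEmbedding_isReal φ
  exact ⟨h.embedding, fun x => (h.coe_embedding_apply x).symm⟩

/-- The quadratic relation satisfied by `z = 2y - w`. -/
theorem quad_rel {F : Type*} [Field F] (δ κ κ' y : F)
    (hy : (κ * (1 + δ * κ)) * (κ' * (1 + δ * κ')) = y ^ 2) :
    (2 * y - (2 * δ * κ * κ' + κ + κ')) *
      ((2 * y - (2 * δ * κ * κ' + κ + κ')) + 2 * (2 * δ * κ * κ' + κ + κ')) =
      - (κ' - κ) ^ 2 := by
  linear_combination (-4) * hy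

theorem poly_rel {F : Type*} [Field F] (δ κ κ' X R z : F)
    (h1 : (1 + δ) * κ = X - 1) (h2 : (1 + δ) * κ' = R * X - 1)
    (hz : z * (z + 2 * (2 * δ * κ * κ' + κ + κ')) = - (κ' - κ) ^ 2) :
    (4 * z * δ * R + (R - 1) ^ 2) * X ^ 2 + (2 * z * (1 - δ) * (R + 1)) * X
      + (z ^ 2 * (1 + δ) ^ 2 - 4 * z) = 0 := by
  have e1 : (1 + δ) ^ 2 * (2 * δ * κ * κ' + κ + κ') =
      2 * δ * ((X - 1) * (R * X - 1)) + (1 + δ) * ((X - 1) + (R * X - 1)) := by
    rw [← h1, ← h2]; ring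
  have e2 : (1 + δ) * (κ' - κ) = X * (R - 1) := by
    rw [mul_sub, h1, h2]; ring
  have e3 : (1 + δ) ^ 2 * (κ' - κ) ^ 2 = (X * (R - 1)) ^ 2 := by
    rw [← e2]; ring
  linear_combination (1 + δ) ^ 2 * hz - 2 * z * e1 - e3

theorem quadratic_ne_zero {F : Type*} [Field F] (a b c : F) (hb : b ≠ 0) :
    (Polynomial.C a * Polynomial.X ^ 2 + Polynomial.C b * Polynomial.X + Polynomial.C c :
      Polynomial F) ≠ 0 := by
  intro h
  have hc := congrArg (fun P : Polynomial F => P.coeff 1) h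
  simp only [Polynomial.coeff_add, Polynomial.coeff_C_mul, Polynomial.coeff_X_pow,
    Polynomial.coeff_X_one, Polynomial.coeff_C, Polynomial.coeff_zero] at hc
  norm_num at hc
  exact hb hc

/-- Real estimates: the dominant place. -/
theorem bound_big (d e X R y κ κ' : ℝ) (hd : 0 < d) (he : 1 < e) (hX : e ≤ X) (hR : e ≤ R)
    (h1 : (1 + d) * κ = X - 1) (h2 : (1 + d) * κ' = R * X - 1) (hy0 : 0 ≤ y)
    (hz : (2 * y - (2 * d * κ * κ' + κ + κ')) *
      ((2 * y - (2 * d * κ * κ' + κ + κ')) + 2 * (2 * d * κ * κ' + κ + κ')) =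
      - (κ' - κ) ^ 2) :
    |2 * y - (2 * d * κ * κ' + κ + κ')| ≤ (R + (R - 1) / (e - 1)) / (2 * d) := by
  have hd1 : 0 < 1 + d := by linarith
  have hκ : 0 < κ := by
    have : 0 < (1 + d) * κ := by rw [h1]; linarith
    exact (mul_pos_iff_of_pos_left hd1).1 this
  have hRX : X ≤ R * X := by nlinarith
  have hκκ' : κ ≤ κ' := by
    have : (1 + d) * κ ≤ (1 + d) * κ' := by rw [h1, h2]; linarith
    exact le_of_mul_le_mul_left this hd1
  have hκ' : 0 < κ' := lt_of_lt_of_le hκ hκκ'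
  set w := 2 * d * κ * κ' + κ + κ' with hw
  have hwpos : 0 < w := by positivity
  have hratio : κ' ≤ (R + (R - 1) / (e - 1)) * κ := by
    have h3 : (1 + d) * κ' ≤ (1 + d) * ((R + (R - 1) / (e - 1)) * κ) := by
      have : (1 + d) * ((R + (R - 1) / (e - 1)) * κ) = (R + (R - 1) / (e - 1)) * (X - 1) := by
        rw [← h1]; ring
      rw [this, h2]
      have h4 : (R - 1) / (e - 1) * (X - 1) ≥ R - 1 := by
        rw [ge_iff_le, div_mul_eq_mul_div, le_div_iff₀ (by linarith)]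
        nlinarith
      nlinarith
    exact le_of_mul_le_mul_left h3 hd1
  have hzneg : (2 * y - w) * (2 * y + w) = - (κ' - κ) ^ 2 := by
    rw [← hz]; ring
  have habs : |2 * y - w| * (2 * y + w) = (κ' - κ) ^ 2 := by
    have h7 : |(2 * y - w) * (2 * y + w)| = |-(κ' - κ) ^ 2| := by rw [hzneg]
    rw [abs_mul, abs_neg, abs_of_pos (show (0:ℝ) < 2 * y + w by linarith)] at h7
    rw [h7]
    exact abs_of_nonneg (sq_nonneg _)
  have hsq : (κ' - κ) ^ 2 ≤ κ' ^ 2 := by
    apply pow_le_pow_left₀ <;> linarith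
  rw [le_div_iff₀ (by positivity)]
  have h5 : |2 * y - w| * (2 * d) * (κ * κ') ≤ κ' * κ' := by
    calc |2 * y - w| * (2 * d) * (κ * κ') = |2 * y - w| * (2 * d * κ * κ') := by ring
      _ ≤ |2 * y - w| * (2 * y + w) := by
          apply mul_le_mul_of_nonneg_left _ (abs_nonneg _)
          rw [hw]; nlinarith
      _ = (κ' - κ) ^ 2 := habs
      _ ≤ κ' * κ' := by rw [← sq]; exact hsq
  have h6 : κ' * κ' ≤ (R + (R - 1) / (e - 1)) * (κ * κ') := by nlinarith
  exact le_of_mul_le_mul_right (h5.trans h6) (by positivity)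

/-- Real estimates: the other places. -/
theorem bound_small (d X X' y κ κ' : ℝ) (hd : 0 < d) (hX0 : 0 < X) (hX1 : X ≤ 1)
    (hX0' : 0 < X') (hX1' : X' ≤ 1)
    (h1 : (1 + d) * κ = X - 1) (h2 : (1 + d) * κ' = X' - 1)
    (hz : (2 * y - (2 * d * κ * κ' + κ + κ')) *
      ((2 * y - (2 * d * κ * κ' + κ + κ')) + 2 * (2 * d * κ * κ' + κ + κ')) =
      - (κ' - κ) ^ 2) :
    |2 * y - (2 * d * κ * κ' + κ + κ')| ≤ 4 * d + 4 := by
  have hd1 : 0 < 1 + d := by linarith
  have key : ∀ (Y l : ℝ), 0 < Y → Y ≤ 1 → (1 + d) * l = Y - 1 → |l| ≤ 1 := by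
    intro Y l hY0 hY1 h
    rw [abs_le]
    constructor
    · nlinarith
    · nlinarith
  have hκ := key X κ hX0 hX1 h1
  have hκ' := key X' κ' hX0' hX1' h2
  set w := 2 * d * κ * κ' + κ + κ' with hw
  have hwabs : |w| ≤ 2 * d + 2 := by
    calc |w| ≤ |2 * d * κ * κ'| + |κ| + |κ'| := by
          rw [hw]; exact (abs_add_le _ _).trans (by gcongr; exact abs_add_le _ _)
      _ = 2 * d * (|κ| * |κ'|) + |κ| + |κ'| := by
          rw [abs_mul, abs_mul, abs_of_pos (by positivity : (0:ℝ) < 2 * d)]; ring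
      _ ≤ 2 * d * (1 * 1) + 1 + 1 := by gcongr
      _ = 2 * d + 2 := by ring
  have hy2 : (2 * y) ^ 2 ≤ w ^ 2 := by nlinarith [sq_nonneg (κ' - κ)]
  have hy : |2 * y| ≤ |w| := sq_le_sq.1 hy2
  calc |2 * y - w| ≤ |2 * y| + |w| := abs_sub _ _
    _ ≤ |w| + |w| := by gcongr
    _ ≤ (2 * d + 2) + (2 * d + 2) := by gcongr
    _ = 4 * d + 4 := by ring

theorem finite_square_pairs {F : Type*} [Field F] [NumberField F]
    (hF : NumberField.IsTotallyReal F) (δ η : F) (hδint : IsIntegral ℤ δ)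
    (hδpos : ∀ φ : F →+* ℝ, 0 < φ δ) (hδ1 : δ ≠ 1) (hηpos : ∀ φ : F →+* ℝ, 0 < φ η)
    (σ₁ : F →+* ℝ) (hσ₁ : 1 < σ₁ η) (hother : ∀ φ : F →+* ℝ, φ ≠ σ₁ → φ η < 1)
    (κ : ℕ → F) (hκ : ∀ k, (1 + δ) * κ k = η ^ k - 1) (hκint : ∀ k, IsIntegral ℤ (κ k))
    (m : ℕ) (hm : 0 < m) :
    {k : ℕ | ∃ y : F, (κ k * (1 + δ * κ k)) * (κ (k + m) * (1 + δ * κ (k + m))) = y ^ 2}.Finite := by
  classical
  -- powers of `η` are distinct
  have hinj : Function.Injective fun k : ℕ => η ^ k := by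
    intro a b hab
    have : (σ₁ η) ^ a = (σ₁ η) ^ b := by
      have := congrArg σ₁ hab
      simpa using this
    exact pow_right_injective₀ (by linarith) hσ₁.ne' this
  -- a bound for all embeddings
  obtain ⟨B, hB⟩ : ∃ B : ℝ, ∀ φ : F →+* ℝ,
      4 * φ δ + 4 ≤ B ∧ ((σ₁ η) ^ m + ((σ₁ η) ^ m - 1) / (σ₁ η - 1)) / (2 * σ₁ δ) ≤ B := by
    have hfin : Finite (F →+* ℝ) := by
      have : Function.Injective
          (fun φ : F →+* ℝ => (Complex.ofRealHom.comp φ : F →+* ℂ)) := by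
        intro a b hab
        ext x
        have := RingHom.congr_fun hab x
        simpa using this
      exact Finite.of_injective _ this
    cases nonempty_fintype (F →+* ℝ)
    refine ⟨(∑ φ : F →+* ℝ, (4 * φ δ + 4)) +
      |((σ₁ η) ^ m + ((σ₁ η) ^ m - 1) / (σ₁ η - 1)) / (2 * σ₁ δ)|, fun φ => ⟨?_, ?_⟩⟩
    · have h1 : 4 * φ δ + 4 ≤ ∑ φ : F →+* ℝ, (4 * φ δ + 4) :=
        Finset.single_le_sum (f := fun φ : F →+* ℝ => 4 * φ δ + 4)
          (fun ψ _ => by have := hδpos ψ; positivity) (Finset.mem_univ φ)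
      have := abs_nonneg (((σ₁ η) ^ m + ((σ₁ η) ^ m - 1) / (σ₁ η - 1)) / (2 * σ₁ δ))
      linarith
    · have h1 : 0 ≤ ∑ φ : F →+* ℝ, (4 * φ δ + 4) :=
        Finset.sum_nonneg (fun ψ _ => by have := hδpos ψ; positivity)
      have := le_abs_self (((σ₁ η) ^ m + ((σ₁ η) ^ m - 1) / (σ₁ η - 1)) / (2 * σ₁ δ))
      linarith
  -- the finite set of possible `z`
  have hZ : {x : F | IsIntegral ℤ x ∧ ∀ φ : F →+* ℂ, ‖φ x‖ ≤ B}.Finite :=
    Embeddings.finite_of_norm_le F ℂ B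
  -- for each `z ≠ 0` finitely many `k`
  have hfinz : ∀ z : F, z ≠ 0 → {k : ℕ | (4 * z * δ * η ^ m + (η ^ m - 1) ^ 2) * (η ^ k) ^ 2 +
      (2 * z * (1 - δ) * (η ^ m + 1)) * η ^ k + (z ^ 2 * (1 + δ) ^ 2 - 4 * z) = 0}.Finite := by
    intro z hz
    let P : Polynomial F := Polynomial.C (4 * z * δ * η ^ m + (η ^ m - 1) ^ 2) * Polynomial.X ^ 2 +
      Polynomial.C (2 * z * (1 - δ) * (η ^ m + 1)) * Polynomial.X +
      Polynomial.C (z ^ 2 * (1 + δ) ^ 2 - 4 * z)
    have hP : P ≠ 0 := by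
      apply quadratic_ne_zero
      have h2 : (2 : F) ≠ 0 := two_ne_zero
      have h3 : (1 - δ) ≠ 0 := sub_ne_zero.2 (Ne.symm hδ1)
      have h4 : (η ^ m + 1) ≠ 0 := by
        intro h
        have := congrArg σ₁ h
        simp only [map_add, map_pow, map_one, map_zero] at this
        have : 0 < (σ₁ η) ^ m := by have := hηpos σ₁; positivity
        linarith
      exact mul_ne_zero (mul_ne_zero (mul_ne_zero h2 hz) h3) h4
    have hroots : {x : F | P.IsRoot x}.Finite := Polynomial.finite_setOfPred_isRoot hP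
    refine (hroots.preimage (f := fun k : ℕ => η ^ k) hinj.injOn).subset ?_
    intro k hk
    simp only [Set.mem_preimage, Set.mem_ofPred_eq, Polynomial.IsRoot.def, P] at hk ⊢
    simpa using hk
  -- conclusion
  refine ((Set.finite_singleton 0).union (hZ.biUnion (t := fun z => if z = 0 then ∅ else
    {k : ℕ | (4 * z * δ * η ^ m + (η ^ m - 1) ^ 2) * (η ^ k) ^ 2 +
      (2 * z * (1 - δ) * (η ^ m + 1)) * η ^ k + (z ^ 2 * (1 + δ) ^ 2 - 4 * z) = 0})
    (fun z _ => ?_))).subset ?_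
  · by_cases hz : z = 0
    · simp [hz]
    · simpa [hz] using hfinz z hz
  intro k hk
  obtain ⟨y0, hy0⟩ := hk
  by_cases hk0 : k = 0
  · left; simpa using hk0
  right
  -- choose the sign of `y`
  obtain ⟨y, hy, hyσ⟩ : ∃ y : F, (κ k * (1 + δ * κ k)) * (κ (k + m) * (1 + δ * κ (k + m))) = y ^ 2
      ∧ 0 ≤ σ₁ y := by
    rcases le_total 0 (σ₁ y0) with h | h
    · exact ⟨y0, hy0, h⟩
    · exact ⟨-y0, by rw [hy0]; ring, by simpa using h⟩
  set w : F := 2 * δ * κ k * κ (k + m) + κ k + κ (k + m) with hw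
  set z : F := 2 * y - w with hzdef
  have hrel : z * (z + 2 * w) = - (κ (k + m) - κ k) ^ 2 := quad_rel δ (κ k) (κ (k + m)) y hy
  have h1 := hκ k
  have h2 : (1 + δ) * κ (k + m) = η ^ m * η ^ k - 1 := by rw [hκ, pow_add]; ring
  have hpoly := poly_rel δ (κ k) (κ (k + m)) (η ^ k) (η ^ m) z h1 h2 hrel
  have hz0 : z ≠ 0 := by
    intro h
    rw [h, zero_mul] at hrel
    have h3 : κ (k + m) = κ k := by
      have : (κ (k + m) - κ k) ^ 2 = 0 := by linear_combination hrel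
      have := pow_eq_zero_iff (two_ne_zero) |>.1 this
      exact sub_eq_zero.1 this
    have h4 : η ^ (k + m) = η ^ k := by
      have e1 := hκ (k + m)
      have e2 := hκ k
      rw [h3] at e1
      have : η ^ (k + m) - 1 = η ^ k - 1 := by rw [← e1, ← e2]
      exact sub_left_injective this
    have := hinj h4
    omega
  have hyint : IsIntegral ℤ y := by
    have h5 : IsIntegral ℤ (y ^ 2) := by
      rw [← hy]
      have a := hκint k
      have b := hκint (k + m)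
      have c : IsIntegral ℤ (1 : F) := isIntegral_one
      exact (a.mul (c.add (hδint.mul a))).mul (b.mul (c.add (hδint.mul b)))
    exact IsIntegral.of_pow two_pos h5
  have hzint : IsIntegral ℤ z := by
    have a := hκint k
    have b := hκint (k + m)
    have c2 : IsIntegral ℤ (2 : F) := by
      have := (isIntegral_algebraMap : IsIntegral ℤ (algebraMap ℤ F 2))
      simpa using this
    exact (c2.mul hyint).sub ((((c2.mul hδint).mul a).mul b).add a |>.add b)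
  have hzB : ∀ φ : F →+* ℂ, ‖φ z‖ ≤ B := by
    intro φ
    obtain ⟨ψ, hψ⟩ := exists_real_embedding hF φ
    rw [hψ, Complex.norm_real, Real.norm_eq_abs]
    have e1 : (1 + ψ δ) * ψ (κ k) = (ψ η) ^ k - 1 := by
      have := congrArg ψ h1; simpa using this
    have e2 : (1 + ψ δ) * ψ (κ (k + m)) = (ψ η) ^ m * (ψ η) ^ k - 1 := by
      have := congrArg ψ h2; simpa using this
    have e3 : (2 * ψ y - (2 * ψ δ * ψ (κ k) * ψ (κ (k + m)) + ψ (κ k) + ψ (κ (k + m)))) *
      ((2 * ψ y - (2 * ψ δ * ψ (κ k) * ψ (κ (k + m)) + ψ (κ k) + ψ (κ (k + m)))) +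
        2 * (2 * ψ δ * ψ (κ k) * ψ (κ (k + m)) + ψ (κ k) + ψ (κ (k + m)))) =
      - (ψ (κ (k + m)) - ψ (κ k)) ^ 2 := by
      have := congrArg ψ hrel
      simpa [hzdef, hw, map_ofNat] using this
    have e4 : ψ z = 2 * ψ y - (2 * ψ δ * ψ (κ k) * ψ (κ (k + m)) + ψ (κ k) + ψ (κ (k + m))) := by
      simp [hzdef, hw, map_ofNat]
    rw [e4]
    by_cases hψ1 : ψ = σ₁
    · subst hψ1
      refine (bound_big (ψ δ) (ψ η) ((ψ η) ^ k) ((ψ η) ^ m) (ψ y) (ψ (κ k)) (ψ (κ (k + m)))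
        (hδpos ψ) hσ₁ ?_ ?_ e1 e2 hyσ e3).trans (hB ψ).2
      · exact le_self_pow₀ hσ₁.le hk0
      · exact le_self_pow₀ hσ₁.le hm.ne'
    · have hlt := hother ψ hψ1
      have hpos := hηpos ψ
      refine (bound_small (ψ δ) ((ψ η) ^ k) ((ψ η) ^ m * (ψ η) ^ k) (ψ y) (ψ (κ k))
        (ψ (κ (k + m))) (hδpos ψ) (by positivity) (pow_le_one₀ hpos.le hlt.le) (by positivity)
        ?_ e1 e2 e3).trans (hB ψ).1
      rw [← pow_add]
      exact pow_le_one₀ hpos.le hlt.le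
  refine Set.mem_biUnion (x := z) ⟨hzint, hzB⟩ ?_
  simp only [hz0, if_false]
  exact hpoly

end Pool.Agent.Helper93
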